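import Pool.Agent.W664.Fill.N12.Par

/-! # Certificates (generated) -/

namespace Pool.Agent.W664.Fill.N12

/-- Certificates, part 92. -/
noncomputable def d92 : D :=
  D.cons 205164269356082 59832594682001722881176672490202007361226339930122005925177416538420425 (
  D.cons 205164269360178 55466770701682119556630291892816201940383963636305037926674002001031550 (
  D.cons 205164269425714 51668796509959925145660110071724747397008722481712959255789194999524575 (
  D.cons 205164270474290 43262351761849073703272687930307084328095999884305223291096853653778575 (
  D.cons 205164287251506 41422339022250214745582292288667447936115084337421397487369498707126225 (
  D.cons 205164555686962 39836758968303311393315417416837786748834459382401674895625115383391775 (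
  D.cons 205168564323106 66656831444053463968697688103431306292151990094925882416377466398475125 (
  D.cons 205168564323122 63515999540662038309006711685892699676842244724596284053696184391334400 (
  D.cons 205168564323378 61583309517744249208130781534921897657150586695912718469831440938856700 (
  D.cons 205168564327474 57042245561093661206050166753849683066343137690946951705892772407963050 (
  D.cons 205168564393010 53224051155474964849608326227391308832768314391244073303627435621771625 (
  D.cons 205168565441586 45082151578232690620290758129635294943028263064309802666829663895055250 (
  D.cons 205168582218802 43452763654976852114364833646434637739363275478172284077316340815258250 (
  D.cons 205168850654258 41794728970940046433799721697561180203513767909600873844742977845485700 (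
  D.cons 205173145621554 43740907884095168433097471453383159904105019994174514486904201102253050 (
  D.cons 205237283799842 70225658467344190166385338116230024206545278440872450759359469976584025 (
  D.cons 205237283799858 66656837217779296193448754810732590763769027149398631916641399120885100 (
  D.cons 205237283800114 64724147072733670160781008041043400787510635712122186942932700471782150 (
  D.cons 205237283804210 59696118725882074835463344376271781789342647665211030935329900057356025 (
  D.cons 205237283869746 55923419325073371220364091303713182435766059841670415822839806194377425 (
  D.cons 205237284918322 47530454968100113802512361949144639748871786587955346183216044271756575 (
  D.cons 205237301695538 45966781818428399947896230751362654306605786920933700762764446155168775 (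
  D.cons 205237570130994 44101492549210191234858945673507749669135793669987923062510271537895850 (
  D.cons 205241865098290 45954996035061134492981233630198847907052513572048770786297699862861275 (
  D.cons 205310584575026 36259527013046191887129995951668890438506627084363595625907982838031750 (
  D.cons 206336795427618 94974903745258040117739139169320766541967041580183986073047855182931425 (
  D.cons 206336795427634 92361471315186347095187609585348731321277373145190433157389878447594975 (
  D.cons 206336795427890 90733766328501176895216223535608796250764277471241062483719717312811275 (
  D.cons 206336795431986 85121044395416484331711014282556548596948907526471051516136203470523175 (
  D.cons 206336795497522 80642332377922645879642142965958049042121128269205025940586506639918375 (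
  D.cons 206336796546098 71076610572327935053339794724675535694753203661786394789362549868480250 (
  D.cons 206336813323314 69017549998337241370870901897145314565157571249707007966198920488434600 (
  D.cons 206337081758770 67137095270610667714941221336705292471361385334052487483703691791317150 (
  D.cons 206341376726066 69863422369690324426555365422929414852348681008642263022431888625120800 (
  D.cons 206410096202802 51938456976018056655371175159540684804101033399808008959641733499467700 (
  D.cons 223928981472033 126951072964685085247383488639583530066716076807599257818351253987558275 (
  D.nil))))))))))))))))))))))))))))))))))))

theorem t92 : chkD P 200000 d92 = true := by decide +kernel

end Pool.Agent.W664.Fill.N12
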