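import Pool.Agent.W664.Fill.N12.C0
import Pool.Agent.W664.Fill.N12.C1
import Pool.Agent.W664.Fill.N12.C2
import Pool.Agent.W664.Fill.N12.C3
import Pool.Agent.W664.Fill.N12.C4
import Pool.Agent.W664.Fill.N12.C5
import Pool.Agent.W664.Fill.N12.C6
import Pool.Agent.W664.Fill.N12.C7
import Pool.Agent.W664.Fill.N12.C8
import Pool.Agent.W664.Fill.N12.C9
import Pool.Agent.W664.Fill.N12.C10
import Pool.Agent.W664.Fill.N12.C11
import Pool.Agent.W664.Fill.N12.C12
import Pool.Agent.W664.Fill.N12.C13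
import Pool.Agent.W664.Fill.N12.C14
import Pool.Agent.W664.Fill.N12.C15
import Pool.Agent.W664.Fill.N12.C16
import Pool.Agent.W664.Fill.N12.C17
import Pool.Agent.W664.Fill.N12.C18
import Pool.Agent.W664.Fill.N12.C19
import Pool.Agent.W664.Fill.N12.C20
import Pool.Agent.W664.Fill.N12.C21
import Pool.Agent.W664.Fill.N12.C22
import Pool.Agent.W664.Fill.N12.C23

/-! # Completeness of the certificates (generated) -/

namespace Pool.Agent.W664.Fill.N12

/-- All certificates. -/
noncomputable def all : D :=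
  D.app d0 (
  D.app d1 (
  D.app d2 (
  D.app d3 (
  D.app d4 (
  D.app d5 (
  D.app d6 (
  D.app d7 (
  D.app d8 (
  D.app d9 (
  D.app d10 (
  D.app d11 (
  D.app d12 (
  D.app d13 (
  D.app d14 (
  D.app d15 (
  D.app d16 (
  D.app d17 (
  D.app d18 (
  D.app d19 (
  D.app d20 (
  D.app d21 (
  D.app d22 (
  D.app d23 (
  D.app d24 (
  D.app d25 (
  D.app d26 (
  D.app d27 (
  D.app d28 (
  D.app d29 (
  D.app d30 (
  D.app d31 (
  D.app d32 (
  D.app d33 (
  D.app d34 (
  D.app d35 (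
  D.app d36 (
  D.app d37 (
  D.app d38 (
  D.app d39 (
  D.app d40 (
  D.app d41 (
  D.app d42 (
  D.app d43 (
  D.app d44 (
  D.app d45 (
  D.app d46 (
  D.app d47 (
  D.app d48 (
  D.app d49 (
  D.app d50 (
  D.app d51 (
  D.app d52 (
  D.app d53 (
  D.app d54 (
  D.app d55 (
  D.app d56 (
  D.app d57 (
  D.app d58 (
  D.app d59 (
  D.app d60 (
  D.app d61 (
  D.app d62 (
  D.app d63 (
  D.app d64 (
  D.app d65 (
  D.app d66 (
  D.app d67 (
  D.app d68 (
  D.app d69 (
  D.app d70 (
  D.app d71 (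
  D.app d72 (
  D.app d73 (
  D.app d74 (
  D.app d75 (
  D.app d76 (
  D.app d77 (
  D.app d78 (
  D.app d79 (
  D.app d80 (
  D.app d81 (
  D.app d82 (
  D.app d83 (
  D.app d84 (
  D.app d85 (
  D.app d86 (
  D.app d87 (
  D.app d88 (
  D.app d89 (
  D.app d90 (
  D.app d91 (
  d92))))))))))))))))))))))))))))))))))))))))))))))))))))))))))))))))))))))))))))))))))))))))))))

theorem compl : complB 12 all = true := by decide +kernel

theorem sym : symB P 12 = true := by decide +kernel

end Pool.Agent.W664.Fill.N12
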