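import Mathlib
import Pool.Agent.W664.Fill.Final
import Pool.Agent.W664.Fill.N12.Compl
import Pool.Agent.W664.Fill.N12.Flux

/-! # The area bound for `N = 12` (generated) -/

open Real

namespace Pool.Agent.W664.Fill.N12

open Pool.Agent.H115R3.Filling

theorem allOk : ∀ x L, Dmem x L all → leafB P 200000 x L = true :=
  app_ok (chkD_sound P 200000 d0 t0) (
  app_ok (chkD_sound P 200000 d1 t1) (
  app_ok (chkD_sound P 200000 d2 t2) (
  app_ok (chkD_sound P 200000 d3 t3) (
  app_ok (chkD_sound P 200000 d4 t4) (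
  app_ok (chkD_sound P 200000 d5 t5) (
  app_ok (chkD_sound P 200000 d6 t6) (
  app_ok (chkD_sound P 200000 d7 t7) (
  app_ok (chkD_sound P 200000 d8 t8) (
  app_ok (chkD_sound P 200000 d9 t9) (
  app_ok (chkD_sound P 200000 d10 t10) (
  app_ok (chkD_sound P 200000 d11 t11) (
  app_ok (chkD_sound P 200000 d12 t12) (
  app_ok (chkD_sound P 200000 d13 t13) (
  app_ok (chkD_sound P 200000 d14 t14) (
  app_ok (chkD_sound P 200000 d15 t15) (
  app_ok (chkD_sound P 200000 d16 t16) (
  app_ok (chkD_sound P 200000 d17 t17) (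
  app_ok (chkD_sound P 200000 d18 t18) (
  app_ok (chkD_sound P 200000 d19 t19) (
  app_ok (chkD_sound P 200000 d20 t20) (
  app_ok (chkD_sound P 200000 d21 t21) (
  app_ok (chkD_sound P 200000 d22 t22) (
  app_ok (chkD_sound P 200000 d23 t23) (
  app_ok (chkD_sound P 200000 d24 t24) (
  app_ok (chkD_sound P 200000 d25 t25) (
  app_ok (chkD_sound P 200000 d26 t26) (
  app_ok (chkD_sound P 200000 d27 t27) (
  app_ok (chkD_sound P 200000 d28 t28) (
  app_ok (chkD_sound P 200000 d29 t29) (
  app_ok (chkD_sound P 200000 d30 t30) (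
  app_ok (chkD_sound P 200000 d31 t31) (
  app_ok (chkD_sound P 200000 d32 t32) (
  app_ok (chkD_sound P 200000 d33 t33) (
  app_ok (chkD_sound P 200000 d34 t34) (
  app_ok (chkD_sound P 200000 d35 t35) (
  app_ok (chkD_sound P 200000 d36 t36) (
  app_ok (chkD_sound P 200000 d37 t37) (
  app_ok (chkD_sound P 200000 d38 t38) (
  app_ok (chkD_sound P 200000 d39 t39) (
  app_ok (chkD_sound P 200000 d40 t40) (
  app_ok (chkD_sound P 200000 d41 t41) (
  app_ok (chkD_sound P 200000 d42 t42) (
  app_ok (chkD_sound P 200000 d43 t43) (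
  app_ok (chkD_sound P 200000 d44 t44) (
  app_ok (chkD_sound P 200000 d45 t45) (
  app_ok (chkD_sound P 200000 d46 t46) (
  app_ok (chkD_sound P 200000 d47 t47) (
  app_ok (chkD_sound P 200000 d48 t48) (
  app_ok (chkD_sound P 200000 d49 t49) (
  app_ok (chkD_sound P 200000 d50 t50) (
  app_ok (chkD_sound P 200000 d51 t51) (
  app_ok (chkD_sound P 200000 d52 t52) (
  app_ok (chkD_sound P 200000 d53 t53) (
  app_ok (chkD_sound P 200000 d54 t54) (
  app_ok (chkD_sound P 200000 d55 t55) (
  app_ok (chkD_sound P 200000 d56 t56) (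
  app_ok (chkD_sound P 200000 d57 t57) (
  app_ok (chkD_sound P 200000 d58 t58) (
  app_ok (chkD_sound P 200000 d59 t59) (
  app_ok (chkD_sound P 200000 d60 t60) (
  app_ok (chkD_sound P 200000 d61 t61) (
  app_ok (chkD_sound P 200000 d62 t62) (
  app_ok (chkD_sound P 200000 d63 t63) (
  app_ok (chkD_sound P 200000 d64 t64) (
  app_ok (chkD_sound P 200000 d65 t65) (
  app_ok (chkD_sound P 200000 d66 t66) (
  app_ok (chkD_sound P 200000 d67 t67) (
  app_ok (chkD_sound P 200000 d68 t68) (
  app_ok (chkD_sound P 200000 d69 t69) (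
  app_ok (chkD_sound P 200000 d70 t70) (
  app_ok (chkD_sound P 200000 d71 t71) (
  app_ok (chkD_sound P 200000 d72 t72) (
  app_ok (chkD_sound P 200000 d73 t73) (
  app_ok (chkD_sound P 200000 d74 t74) (
  app_ok (chkD_sound P 200000 d75 t75) (
  app_ok (chkD_sound P 200000 d76 t76) (
  app_ok (chkD_sound P 200000 d77 t77) (
  app_ok (chkD_sound P 200000 d78 t78) (
  app_ok (chkD_sound P 200000 d79 t79) (
  app_ok (chkD_sound P 200000 d80 t80) (
  app_ok (chkD_sound P 200000 d81 t81) (
  app_ok (chkD_sound P 200000 d82 t82) (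
  app_ok (chkD_sound P 200000 d83 t83) (
  app_ok (chkD_sound P 200000 d84 t84) (
  app_ok (chkD_sound P 200000 d85 t85) (
  app_ok (chkD_sound P 200000 d86 t86) (
  app_ok (chkD_sound P 200000 d87 t87) (
  app_ok (chkD_sound P 200000 d88 t88) (
  app_ok (chkD_sound P 200000 d89 t89) (
  app_ok (chkD_sound P 200000 d90 t90) (
  app_ok (chkD_sound P 200000 d91 t91) (
  chkD_sound P 200000 d92 t92))))))))))))))))))))))))))))))))))))))))))))))))))))))))))))))))))))))))))))))))))))))))))))

theorem area_ge {M : Type} [MetricSpace M] (S : OrientedSurface M) (hS : S.NoShortcut) :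
    ((69261024 : ℕ) : ℝ) / (4 * ((12 : ℕ) : ℝ) ^ 2 * ((200000 : ℕ) : ℝ)) * π ^ 2 ≤ S.area :=
  area_ge_cert S hS P 12 6 rfl (by norm_num) (by norm_num) rfl 200000 (by norm_num) all allOk
    compl sym 69261024 flux

end Pool.Agent.W664.Fill.N12
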